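import Pool.Agent.V1120.Bandlow.Reflect

/-!
# The continuum hypothesis and Fleissner's Axiom R imply the reflection principle
-/

set_option autoImplicit false
set_option linter.unusedSectionVars false

namespace Pool.Agent.V1120.Bandlow

open Set Cardinal Topology Filter

/-- The first uncountable ordinal, as a type. -/
abbrev Omega1 : Type := (Cardinal.aleph 1).ord.ToType

/-- Fleissner's Axiom R: stationary families of countable sets reflect to members of any family of
sets of size at most `ℵ₁` which is unbounded and closed under unions of increasing `ω₁`-chains. -/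
def AxiomR : Prop :=
  ∀ (Z : Type) (T : Set (Set Z)), StationaryIn Set.univ T →
    ∀ 𝒯 : Set (Set Z), (∀ N ∈ 𝒯, #N ≤ aleph 1) →
      (∀ E : Set Z, #E ≤ aleph 1 → ∃ N ∈ 𝒯, E ⊆ N) →
      (∀ N : Omega1 → Set Z, Monotone N → (∀ a, N a ∈ 𝒯) → (⋃ a, N a) ∈ 𝒯) →
      ∃ N ∈ 𝒯, StationaryIn N T

theorem mk_Omega1 : #Omega1 = aleph 1 := mk_ord_toType _

theorem countable_Iio_Omega1 (b : Omega1) : (Iio b).Countable := by
  rw [← le_aleph0_iff_set_countable]
  have h : #(Iio b) < aleph 1 := Cardinal.mk_Iio_toType_ord_lt b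
  apply Order.lt_succ_iff.1
  rw [succ_aleph0]
  exact h

theorem bounded_Omega1 (D : Set Omega1) (hD : D.Countable) : ∃ a : Omega1, ∀ i ∈ D, i < a := by
  by_contra hcon
  push Not at hcon
  have hcov : (Set.univ : Set Omega1) ⊆ ⋃ i ∈ D, (Iio i ∪ {i}) := by
    intro a _
    obtain ⟨i, hi, hai⟩ := hcon a
    refine mem_iUnion₂.2 ⟨i, hi, ?_⟩
    rcases lt_or_eq_of_le hai with h | h
    · exact Or.inl h
    · exact Or.inr h
  have hc : (Set.univ : Set Omega1).Countable :=
    (hD.biUnion (fun i _ => (countable_Iio_Omega1 i).union (countable_singleton i))).mono hcov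
  rw [← le_aleph0_iff_set_countable, mk_univ, mk_Omega1] at hc
  exact absurd aleph0_lt_aleph_one (not_lt.2 hc)

variable {Z : Type} (g : (ℕ → Z) → Set Z)

/-- one step of closing off under `g` -/
def gstep (B : Set Z) : Set Z := B ∪ ⋃ u : ℕ → B, g (fun n => (u n : Z))

theorem mk_gstep_le (hCH : aleph 1 = (continuum : Cardinal.{0})) (hg : ∀ u, (g u).Countable)
    {B : Set Z} (hB : #B ≤ aleph 1) : #(gstep g B) ≤ aleph 1 := by
  have h0 : ℵ₀ ≤ (aleph 1 : Cardinal.{0}) := aleph0_le_aleph 1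
  refine (mk_union_le _ _).trans (add_le_of_le h0 hB ?_)
  refine (mk_iUnion_le _).trans (mul_le_of_le h0 ?_ ?_)
  · rw [← power_def, mk_nat]
    refine (power_le_power_right hB).trans ?_
    rw [hCH, continuum_power_aleph0]
  · refine ciSup_le' (fun u => ?_)
    exact (le_aleph0_iff_set_countable.2 (hg _)).trans h0

/-- the stages of the closing off -/
noncomputable def gstage (E : Set Z) : Omega1 → Set Z :=
  WellFounded.fix (wellFounded_lt (α := Omega1))
    (fun _ ih => E ∪ ⋃ b, ⋃ h, gstep g (ih b h))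

theorem gstage_eq (E : Set Z) (a : Omega1) :
    gstage g E a = E ∪ ⋃ b, ⋃ (_ : b < a), gstep g (gstage g E b) := by
  unfold gstage
  rw [WellFounded.fix_eq]

theorem gstep_gstage (E : Set Z) {a b : Omega1} (h : b < a) :
    gstep g (gstage g E b) ⊆ gstage g E a := by
  rw [gstage_eq g E a]
  intro x hx
  exact Or.inr (mem_iUnion₂.2 ⟨b, h, hx⟩)

theorem mk_gstage_le (hCH : aleph 1 = (continuum : Cardinal.{0})) (hg : ∀ u, (g u).Countable)
    {E : Set Z} (hE : #E ≤ aleph 1) (a : Omega1) : #(gstage g E a) ≤ aleph 1 := by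
  have h0 : ℵ₀ ≤ (aleph 1 : Cardinal.{0}) := aleph0_le_aleph 1
  induction a using WellFoundedLT.induction with
  | ind a ih =>
    rw [gstage_eq]
    refine (mk_union_le _ _).trans (add_le_of_le h0 hE ?_)
    have : (⋃ b, ⋃ (_ : b < a), gstep g (gstage g E b)) =
        ⋃ b : Iio a, gstep g (gstage g E b) := by
      ext x
      simp only [mem_iUnion, Subtype.exists, mem_Iio, exists_prop]
    rw [this]
    refine (mk_iUnion_le _).trans (mul_le_of_le h0 ?_ ?_)
    · exact (le_aleph0_iff_set_countable.2 (countable_Iio_Omega1 a)).trans h0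
    · exact ciSup_le' (fun b => mk_gstep_le g hCH hg (ih b.1 b.2))

/-- the union of an increasing `ω₁`-chain catches all sequences -/
theorem chain_seq {N : Omega1 → Set Z} (hN : Monotone N) {u : ℕ → Z}
    (hu : ∀ n, u n ∈ ⋃ a, N a) : ∃ a, ∀ n, u n ∈ N a := by
  choose a ha using fun n => mem_iUnion.1 (hu n)
  obtain ⟨b, hb⟩ := bounded_Omega1 (range a) (countable_range a)
  exact ⟨b, fun n => hN (hb (a n) ⟨n, rfl⟩).le (ha n)⟩

theorem mk_chain_le {N : Omega1 → Set Z} (hN : ∀ a, #(N a) ≤ aleph 1) :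
    #(⋃ a, N a : Set Z) ≤ aleph 1 := by
  have h0 : ℵ₀ ≤ (aleph 1 : Cardinal.{0}) := aleph0_le_aleph 1
  refine (mk_iUnion_le _).trans (mul_le_of_le h0 (le_of_eq mk_Omega1) ?_)
  exact ciSup_le' hN

theorem reflection_of_axiomR (hCH : aleph 1 = (continuum : Cardinal.{0})) (hR : AxiomR) :
    Reflection := by
  intro Z T hT g hg
  have hunb : ∀ E : Set Z, #E ≤ aleph 1 → ∃ N ∈ ({N | #N ≤ aleph 1 ∧
      ∀ u : ℕ → Z, (∀ n, u n ∈ N) → g u ⊆ N} : Set (Set Z)), E ⊆ N := by
    intro E hE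
    have hmono : Monotone (gstage g E) := by
      intro b a hab
      rcases lt_or_eq_of_le hab with h | h
      · exact subset_union_left.trans (gstep_gstage g E h)
      · rw [h]
    refine ⟨⋃ a, gstage g E a, ⟨mk_chain_le (mk_gstage_le g hCH hg hE), ?_⟩, ?_⟩
    · intro u hu
      obtain ⟨a, ha⟩ := chain_seq hmono hu
      obtain ⟨b, hb⟩ := bounded_Omega1 {a} (countable_singleton a)
      refine Subset.trans ?_ ((gstep_gstage g E (hb a rfl)).trans (subset_iUnion _ b))
      intro x hx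
      exact Or.inr (mem_iUnion.2 ⟨fun n => ⟨u n, ha n⟩, hx⟩)
    · obtain ⟨b, _⟩ := bounded_Omega1 ∅ countable_empty
      refine Subset.trans ?_ (subset_iUnion _ b)
      rw [gstage_eq]
      exact subset_union_left
  have hchain : ∀ N : Omega1 → Set Z, Monotone N → (∀ a, N a ∈ ({N | #N ≤ aleph 1 ∧
      ∀ u : ℕ → Z, (∀ n, u n ∈ N) → g u ⊆ N} : Set (Set Z))) →
      (⋃ a, N a) ∈ ({N | #N ≤ aleph 1 ∧
      ∀ u : ℕ → Z, (∀ n, u n ∈ N) → g u ⊆ N} : Set (Set Z)) := by
    intro N hN hN𝒯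
    refine ⟨mk_chain_le (fun a => (hN𝒯 a).1), ?_⟩
    intro u hu
    obtain ⟨a, ha⟩ := chain_seq hN hu
    exact ((hN𝒯 a).2 u ha).trans (subset_iUnion _ a)
  obtain ⟨N, hN, hN3⟩ := hR Z T hT _ (fun N hN => hN.1) hunb hchain
  exact ⟨N, hN.1.trans (le_of_eq hCH), hN.2, hN3⟩

end Pool.Agent.V1120.Bandlow
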