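import Mathlib

/-!
# Hulls under finitary operations with countable values
-/

set_option autoImplicit false

namespace Pool.Agent.V1120.Bandlow

open Set Cardinal

variable {Z : Type} (O : Finset Z → Set Z)

/-- `M` is closed under the operation `O`. -/
def IsCl (M : Set Z) : Prop := ∀ s : Finset Z, ↑s ⊆ M → O s ⊆ M

/-- One step of closing off. -/
def step (B : Set Z) : Set Z := B ∪ ⋃ s : Finset B, O (s.map ⟨Subtype.val, Subtype.val_injective⟩)

/-- The stages of the hull. -/
def stage (A : Set Z) (n : ℕ) : Set Z := (step O)^[n] A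

/-- The hull of `A`. -/
def hull (A : Set Z) : Set Z := ⋃ n, stage O A n

theorem stage_succ (A : Set Z) (n : ℕ) : stage O A (n + 1) = step O (stage O A n) :=
  Function.iterate_succ_apply' _ _ _

theorem stage_mono_nat (A : Set Z) : Monotone (stage O A) := by
  refine monotone_nat_of_le_succ (fun n => ?_)
  rw [stage_succ]
  exact subset_union_left

theorem subset_hull (A : Set Z) : A ⊆ hull O A := fun x hx => mem_iUnion.2 ⟨0, hx⟩

theorem isCl_hull (A : Set Z) : IsCl O (hull O A) := by
  classical
  intro s hs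
  have h1 : ∃ n, ↑s ⊆ stage O A n := by
    induction s using Finset.induction_on with
    | empty => exact ⟨0, by simp⟩
    | insert a s ha ih =>
      rw [Finset.coe_insert, insert_subset_iff] at hs
      obtain ⟨n, hn⟩ := ih hs.2
      obtain ⟨m, hm⟩ := mem_iUnion.1 hs.1
      refine ⟨max m n, ?_⟩
      rw [Finset.coe_insert, insert_subset_iff]
      exact ⟨stage_mono_nat O A (le_max_left _ _) hm,
        hn.trans (stage_mono_nat O A (le_max_right _ _))⟩
  obtain ⟨n, hn⟩ := h1
  intro x hx
  refine mem_iUnion.2 ⟨n + 1, ?_⟩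
  rw [stage_succ]
  refine Or.inr (mem_iUnion.2 ⟨s.subtype (fun x => x ∈ stage O A n), ?_⟩)
  have : (Finset.subtype (fun x => x ∈ stage O A n) s).map ⟨Subtype.val, Subtype.val_injective⟩
      = s := by
    ext y
    simp only [Finset.mem_map, Finset.mem_subtype, Function.Embedding.coeFn_mk]
    constructor
    · rintro ⟨⟨z, hz⟩, h1, rfl⟩
      exact h1
    · intro hy
      exact ⟨⟨y, hn hy⟩, hy, rfl⟩
  rw [this]
  exact hx

theorem step_subset {B M : Set Z} (hB : B ⊆ M) (hM : IsCl O M) : step O B ⊆ M := by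
  refine union_subset hB (iUnion_subset (fun s => hM _ ?_))
  intro x hx
  simp only [Finset.coe_map, Function.Embedding.coeFn_mk, mem_image] at hx
  obtain ⟨y, _, rfl⟩ := hx
  exact hB y.2

theorem hull_min {A M : Set Z} (hA : A ⊆ M) (hM : IsCl O M) : hull O A ⊆ M := by
  refine iUnion_subset (fun n => ?_)
  induction n with
  | zero => exact hA
  | succ n ih =>
    rw [stage_succ]
    exact step_subset O ih hM

theorem hull_mono {A B : Set Z} (h : A ⊆ B) : hull O A ⊆ hull O B :=
  hull_min O (h.trans (subset_hull O B)) (isCl_hull O B)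

theorem mk_step_le (hO : ∀ s, (O s).Countable) {c : Cardinal.{0}} (hc : ℵ₀ ≤ c) {B : Set Z}
    (hB : #B ≤ c) : #(step O B) ≤ c := by
  unfold step
  refine (mk_union_le _ _).trans (add_le_of_le hc hB ?_)
  refine (mk_iUnion_le _).trans (mul_le_of_le hc ?_ ?_)
  · rcases finite_or_infinite B with h | h
    · exact (mk_le_aleph0 (α := Finset B)).trans hc
    · rw [mk_finset_of_infinite]
      exact hB
  · refine ciSup_le' (fun s => ?_)
    exact (le_aleph0_iff_set_countable.2 (hO _)).trans hc

theorem mk_hull_le (hO : ∀ s, (O s).Countable) {c : Cardinal.{0}} (hc : ℵ₀ ≤ c) {A : Set Z}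
    (hA : #A ≤ c) : #(hull O A) ≤ c := by
  unfold hull
  refine (mk_iUnion_le _).trans (mul_le_of_le hc ?_ ?_)
  · rw [mk_nat]
    exact hc
  · refine ciSup_le' (fun n => ?_)
    induction n with
    | zero => exact hA
    | succ n ih =>
      rw [stage_succ]
      exact mk_step_le O hO hc ih

theorem countable_hull (hO : ∀ s, (O s).Countable) {A : Set Z} (hA : A.Countable) :
    (hull O A).Countable := by
  rw [← le_aleph0_iff_set_countable] at hA ⊢
  exact mk_hull_le O hO le_rfl hA

/-- The union of a directed nonempty family of closed sets is closed. -/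
theorem isCl_iUnion {ι : Type} [Nonempty ι] {M : ι → Set Z} (hM : ∀ i, IsCl O (M i))
    (hdir : ∀ i j, ∃ k, M i ⊆ M k ∧ M j ⊆ M k) : IsCl O (⋃ i, M i) := by
  classical
  intro s hs
  have h1 : ∃ i, ↑s ⊆ M i := by
    induction s using Finset.induction_on with
    | empty => exact ⟨Classical.arbitrary ι, by simp⟩
    | insert a s ha ih =>
      rw [Finset.coe_insert, insert_subset_iff] at hs
      obtain ⟨i, hi⟩ := ih hs.2
      obtain ⟨j, hj⟩ := mem_iUnion.1 hs.1
      obtain ⟨k, h1, h2⟩ := hdir i j
      refine ⟨k, ?_⟩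
      rw [Finset.coe_insert, insert_subset_iff]
      exact ⟨h2 hj, hi.trans h1⟩
  obtain ⟨i, hi⟩ := h1
  exact (hM i s hi).trans (subset_iUnion M i)

end Pool.Agent.V1120.Bandlow
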