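import Pool.Agent.V1120.Bandlow.Hull

/-!
# From countable models to an embedding into a Σ-product (Bandlow)

`X` is compact Hausdorff and countably tight, `O` is a finitary operation with countable values on
`X ⊕ C(X, ℝ)` such that every `O`-closed set is good (its functions separate the closure of its
points) and full.  Then `X` embeds in a Σ-product.
-/

set_option autoImplicit false
set_option linter.unusedSectionVars false

namespace Pool.Agent.V1120.Bandlow

open Set Cardinal Topology

variable {X : Type} [TopologicalSpace X] [CompactSpace X] [T2Space X]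

/-- The points of a set of points and functions. -/
def pts (M : Set (X ⊕ C(X, ℝ))) : Set X := {x | Sum.inl x ∈ M}

/-- The functions of a set of points and functions. -/
def fns (M : Set (X ⊕ C(X, ℝ))) : Set C(X, ℝ) := {φ | Sum.inr φ ∈ M}

theorem pts_mono {M N : Set (X ⊕ C(X, ℝ))} (h : M ⊆ N) : pts M ⊆ pts N := fun _ hx => h hx
theorem fns_mono {M N : Set (X ⊕ C(X, ℝ))} (h : M ⊆ N) : fns M ⊆ fns N := fun _ hx => h hx

/-- The functions of `M` separate the points of the closure of the points of `M`. -/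
def Good (M : Set (X ⊕ C(X, ℝ))) : Prop :=
  ∀ z ∈ closure (pts M), ∀ z' ∈ closure (pts M), (∀ φ ∈ fns M, φ z = φ z') → z = z'

/-- Every point looks, for the functions in `M`, like a point of the closure of `pts M`. -/
def Full (M : Set (X ⊕ C(X, ℝ))) : Prop :=
  ∀ x : X, ∃ z ∈ closure (pts M), ∀ φ ∈ fns M, φ z = φ x

theorem exists_dense (s : Finset (X ⊕ C(X, ℝ))) : ∃ D : Set X, D.Countable ∧
    ∀ x : X, ∀ ε > 0, ∃ p ∈ D, ∀ φ : C(X, ℝ), Sum.inr φ ∈ s → |φ p - φ x| < ε := by
  classical
  let q : X → (s → ℝ) := fun x z => Sum.elim (fun _ => (0 : ℝ)) (fun φ : C(X, ℝ) => φ x) z.1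
  obtain ⟨d, hdc, hd⟩ := TopologicalSpace.exists_countable_dense (range q)
  choose g hg using fun y : range q => y.2
  refine ⟨g '' d, hdc.image g, ?_⟩
  intro x ε hε
  obtain ⟨y, hy, hyx⟩ := hd.exists_dist_lt (⟨q x, ⟨x, rfl⟩⟩ : range q) hε
  refine ⟨g y, ⟨y, hy, rfl⟩, ?_⟩
  intro φ hφ
  have h1 : dist (q x) (q (g y)) < ε := by
    rw [hg y]
    exact hyx
  have h2 := (dist_le_pi_dist (q x) (q (g y)) ⟨Sum.inr φ, hφ⟩).trans_lt h1
  rw [Real.dist_eq, abs_sub_comm] at h2
  exact h2

theorem full_of_dense (M : Set (X ⊕ C(X, ℝ)))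
    (h : ∀ s : Finset (X ⊕ C(X, ℝ)), ↑s ⊆ M → ∀ x : X, ∀ ε > 0, ∃ p ∈ pts M,
      ∀ φ : C(X, ℝ), Sum.inr φ ∈ s → |φ p - φ x| < ε) : Full M := by
  classical
  intro x
  have hK : IsCompact (closure (pts M)) := isClosed_closure.isCompact
  let t : (fns M × ℕ) → Set X := fun i => {z | |i.1.1 z - i.1.1 x| ≤ 1 / ((i.2 : ℝ) + 1)}
  have htc : ∀ i, IsClosed (t i) := fun i =>
    isClosed_le ((i.1.1.continuous.sub continuous_const).abs) continuous_const
  obtain ⟨z, hz, hzt⟩ := hK.inter_iInter_nonempty t htc (by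
    intro u
    obtain ⟨p, hp, hpx⟩ := h (u.image (fun i => Sum.inr i.1.1)) (by
      intro y hy
      rw [Finset.coe_image, mem_image] at hy
      obtain ⟨i, _, rfl⟩ := hy
      exact i.1.2) x (1 / (((u.sup (fun i => i.2) : ℕ) : ℝ) + 1)) (by positivity)
    refine ⟨p, subset_closure hp, ?_⟩
    rw [mem_iInter₂]
    intro i hi
    have h1 := hpx i.1.1 (Finset.mem_image_of_mem _ hi)
    refine h1.le.trans ?_
    apply one_div_le_one_div_of_le (by positivity)
    have h2 : i.2 ≤ u.sup (fun i => i.2) := Finset.le_sup (f := fun i => i.2) hi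
    have h3 : (i.2 : ℝ) ≤ ((u.sup (fun i => i.2) : ℕ) : ℝ) := by exact_mod_cast h2
    linarith)
  refine ⟨z, hz, ?_⟩
  intro φ hφ
  rw [mem_iInter] at hzt
  have h1 : ∀ n : ℕ, |φ z - φ x| ≤ 1 / ((n : ℝ) + 1) := fun n => hzt (⟨φ, hφ⟩, n)
  have h2 : |φ z - φ x| ≤ 0 := by
    refine le_of_forall_pos_le_add (fun ε hε => ?_)
    obtain ⟨n, hn⟩ := exists_nat_one_div_lt hε
    linarith [h1 n]
  have h3 := abs_nonpos_iff.1 h2
  linarith

theorem exists_retraction {M : Set (X ⊕ C(X, ℝ))} (hG : Good M) (hF : Full M) :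
    ∃ r : X → X, Continuous r ∧ (∀ x, r x ∈ closure (pts M)) ∧ ∀ x, ∀ φ ∈ fns M, φ (r x) = φ x := by
  classical
  choose r hr hrφ using hF
  refine ⟨r, ?_, hr, hrφ⟩
  let K := closure (pts M)
  have hKc : CompactSpace K := isCompact_iff_compactSpace.1 isClosed_closure.isCompact
  let e : K → (fns M → ℝ) := fun z φ => φ.1 z.1
  have hec : Continuous e := continuous_pi (fun φ => φ.1.continuous.comp continuous_subtype_val)
  have hei : Function.Injective e := by
    intro z z' h
    refine Subtype.ext (hG z.1 z.2 z'.1 z'.2 (fun φ hφ => ?_))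
    exact congrFun h ⟨φ, hφ⟩
  have hemb := (hec.isClosedEmbedding hei).isEmbedding
  let r' : X → K := fun x => ⟨r x, hr x⟩
  have h1 : Continuous r' := by
    rw [hemb.continuous_iff]
    refine continuous_pi (fun φ => ?_)
    have : (fun x => (e ∘ r') x φ) = fun x => φ.1 x := by
      funext x
      exact hrφ x φ.1 φ.2
    rw [this]
    exact φ.1.continuous
  exact continuous_subtype_val.comp h1

theorem exists_initial {ι : Type} [LinearOrder ι] [WellFoundedLT ι] {J : Set ι}
    (hJ : ¬ J.Countable) : ∃ J' ⊆ J, ¬ J'.Countable ∧ ∀ β ∈ J', (J' ∩ Iio β).Countable := by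
  classical
  by_cases h : ∀ β ∈ J, (J ∩ Iio β).Countable
  · exact ⟨J, Subset.rfl, hJ, h⟩
  · push Not at h
    have hne : {β | β ∈ J ∧ ¬ (J ∩ Iio β).Countable}.Nonempty := h
    obtain ⟨β, hβ, hmin⟩ := WellFounded.has_min (wellFounded_lt (α := ι)) _ hne
    refine ⟨J ∩ Iio β, inter_subset_left, hβ.2, ?_⟩
    intro γ hγ
    by_contra hcon
    refine hmin γ ⟨hγ.1, fun hc => hcon ?_⟩ hγ.2
    exact hc.mono (inter_subset_inter_left _ inter_subset_left)

theorem main_ind (O : Finset (X ⊕ C(X, ℝ)) → Set (X ⊕ C(X, ℝ))) (hO : ∀ s, (O s).Countable)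
    (hG : ∀ M, IsCl O M → Good M) (hF : ∀ M, IsCl O M → Full M)
    (htight : ∀ B : Set X, ∀ z ∈ closure B, ∃ P ⊆ B, P.Countable ∧ z ∈ closure P)
    (c : Cardinal.{0}) : ∀ M : Set (X ⊕ C(X, ℝ)), #M = c → IsCl O M →
      ∃ (Γ : Type) (F : X → Γ → ℝ), Continuous F ∧ (∀ x, (Function.support (F x)).Countable) ∧
        InjOn F (closure (pts M)) := by
  classical
  induction c using WellFoundedLT.induction with
  | ind c IH =>
  intro M hMc hM
  rcases le_or_gt c ℵ₀ with hc | hc
  · -- countable case
    have hMcount : M.Countable := by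
      rw [← le_aleph0_iff_set_countable, hMc]
      exact hc
    have hfc : (fns M).Countable := hMcount.preimage_of_injOn (Sum.inr_injective.injOn)
    refine ⟨fns M, fun x φ => φ.1 x, ?_, ?_, ?_⟩
    · exact continuous_pi (fun φ => φ.1.continuous)
    · intro x
      have : Countable (fns M) := hfc.to_subtype
      exact to_countable _
    · intro z hz z' hz' h
      exact hG M hM z hz z' hz' (fun φ hφ => congrFun h ⟨φ, hφ⟩)
  · -- uncountable case
    let ι : Type := c.ord.ToType
    have hι : #ι = #M := by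
      rw [hMc]
      exact mk_ord_toType c
    obtain ⟨e⟩ := Cardinal.eq.1 hι
    let e' : ι → (X ⊕ C(X, ℝ)) := fun i => (e i).1
    have he' : ∀ m ∈ M, ∃ i, e' i = m := by
      intro m hm
      refine ⟨e.symm ⟨m, hm⟩, ?_⟩
      simp only [e', Equiv.apply_symm_apply]
    let A : ι → Set (X ⊕ C(X, ℝ)) := fun α => hull O (e' '' Iio α)
    let B : ι → Set (X ⊕ C(X, ℝ)) := fun α => hull O (e' '' Iic α)
    let A0 : Set (X ⊕ C(X, ℝ)) := hull O ∅
    have hAcl : ∀ α, IsCl O (A α) := fun α => isCl_hull O _
    have hBcl : ∀ α, IsCl O (B α) := fun α => isCl_hull O _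
    have hA0cl : IsCl O A0 := isCl_hull O _
    have hAB : ∀ α, A α ⊆ B α := fun α => hull_mono O (image_mono Iio_subset_Iic_self)
    have hBA : ∀ {α β}, α < β → B α ⊆ A β := fun h =>
      hull_mono O (image_mono (fun x hx => lt_of_le_of_lt hx h))
    have hBB : ∀ {α β}, α ≤ β → B α ⊆ B β := fun h =>
      hull_mono O (image_mono (fun x hx => le_trans hx h))
    have hBM : ∀ α, B α ⊆ M := by
      intro α
      refine hull_min O ?_ hM
      rintro _ ⟨i, _, rfl⟩
      exact (e i).2
    have hMB : ∀ m ∈ M, ∃ α, m ∈ B α := by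
      intro m hm
      obtain ⟨i, rfl⟩ := he' m hm
      exact ⟨i, subset_hull O _ ⟨i, le_refl i, rfl⟩⟩
    have hBlt : ∀ α, #(B α) < c := by
      intro α
      have h1 : #(Iio α) < c := Cardinal.mk_Iio_toType_ord_lt α
      have h2 : #(Iic α) < c := by
        have : (Iic α) = insert α (Iio α) := by
          ext x
          simp only [mem_Iic, mem_insert_iff, mem_Iio]
          exact le_iff_eq_or_lt
        rw [this]
        refine (mk_insert_le).trans_lt ?_
        exact add_lt_of_lt hc.le h1 (one_lt_aleph0.trans hc)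
      have h3 : #(e' '' Iic α) < c := (mk_image_le).trans_lt h2
      exact (mk_hull_le O hO (c := max #(e' '' Iic α) ℵ₀) (le_max_right _ _)
        (le_max_left _ _)).trans_lt (max_lt h3 hc)
    have hA0lt : #A0 < c := by
      refine lt_of_le_of_lt ?_ hc
      exact mk_hull_le O hO le_rfl (by simp)
    choose Γ F hFc hFs hFi using fun α => IH _ (hBlt α) (B α) rfl (hBcl α)
    obtain ⟨Γ0, F0, hF0c, hF0s, hF0i⟩ := IH _ hA0lt A0 rfl hA0cl
    choose rA hrAc hrA hrAφ using fun α => exists_retraction (hG _ (hAcl α)) (hF _ (hAcl α))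
    choose rB hrBc hrB hrBφ using fun α => exists_retraction (hG _ (hBcl α)) (hF _ (hBcl α))
    obtain ⟨r0, hr0c, hr0, hr0φ⟩ := exists_retraction (hG _ hA0cl) (hF _ hA0cl)
    -- countably many jumps
    have hJ : ∀ x, {α | rB α x ≠ rA α x}.Countable := by
      intro x
      by_contra hcon
      obtain ⟨J, hJsub, hJunc, hJinit⟩ := exists_initial hcon
      have hJne : J.Nonempty := by
        rw [nonempty_iff_ne_empty]
        rintro rfl
        exact hJunc countable_empty
      have : Nonempty J := hJne.to_subtype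
      let N : Set (X ⊕ C(X, ℝ)) := ⋃ α : J, B α
      have hN : IsCl O N := isCl_iUnion O (fun α => hBcl α) (by
        intro α β
        rcases le_total α β with h | h
        · exact ⟨β, hBB h, Subset.rfl⟩
        · exact ⟨α, Subset.rfl, hBB h⟩)
      obtain ⟨w, hw, hwφ⟩ := hF N hN x
      obtain ⟨P, hPN, hPc, hwP⟩ := htight _ w hw
      -- a bound
      have hidx : ∀ p : P, ∃ α ∈ J, Sum.inl p.1 ∈ B α := by
        intro p
        obtain ⟨α, hα⟩ := mem_iUnion.1 (hPN p.2)
        exact ⟨α.1, α.2, hα⟩
      choose i hiJ hiB using hidx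
      have hbound : ∃ α ∈ J, ∀ p, i p < α := by
        by_contra hcon2
        push Not at hcon2
        apply hJunc
        have hPc' : Countable P := hPc.to_subtype
        have : J ⊆ ⋃ p : P, ((J ∩ Iio (i p)) ∪ {i p}) := by
          intro α hα
          obtain ⟨p, hp⟩ := hcon2 α hα
          refine mem_iUnion.2 ⟨p, ?_⟩
          rcases lt_or_eq_of_le hp with h | h
          · exact Or.inl ⟨hα, h⟩
          · exact Or.inr h
        refine (countable_iUnion (fun p => ?_)).mono this
        exact (hJinit _ (hiJ p)).union (countable_singleton _)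
      obtain ⟨α, hαJ, hα⟩ := hbound
      have hwA : w ∈ closure (pts (A α)) := by
        refine closure_mono ?_ hwP
        intro p hp
        exact hBA (hα ⟨p, hp⟩) (hiB ⟨p, hp⟩)
      have hwB : w ∈ closure (pts (B α)) := closure_mono (pts_mono (hAB α)) hwA
      have hBN : B α ⊆ N := subset_iUnion (fun α : J => B α) ⟨α, hαJ⟩
      have h1 : rA α x = w := by
        refine hG _ (hAcl α) _ (hrA α x) _ hwA (fun φ hφ => ?_)
        rw [hrAφ α x φ hφ, hwφ φ (fns_mono ((hAB α).trans hBN) hφ)]
      have h2 : rB α x = w := by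
        refine hG _ (hBcl α) _ (hrB α x) _ hwB (fun φ hφ => ?_)
        rw [hrBφ α x φ hφ, hwφ φ (fns_mono hBN hφ)]
      exact hJsub hαJ (h2.trans h1.symm)
    -- the map
    let G : X → (Γ0 ⊕ (Σ α, Γ α)) → ℝ := fun x => Sum.elim (fun t => F0 (r0 x) t)
      (fun p => F p.1 (rB p.1 x) p.2 - F p.1 (rA p.1 x) p.2)
    refine ⟨Γ0 ⊕ (Σ α, Γ α), G, ?_, ?_, ?_⟩
    · refine continuous_pi (fun p => ?_)
      rcases p with t | ⟨α, t⟩
      · exact (continuous_apply t).comp (hF0c.comp hr0c)
      · exact ((continuous_apply t).comp ((hFc α).comp (hrBc α))).sub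
          ((continuous_apply t).comp ((hFc α).comp (hrAc α)))
    · intro x
      have hsub : Function.support (G x) ⊆ (Sum.inl '' Function.support (F0 (r0 x))) ∪
          ⋃ α ∈ {α | rB α x ≠ rA α x}, (fun t => Sum.inr ⟨α, t⟩) ''
            (Function.support (F α (rB α x)) ∪ Function.support (F α (rA α x))) := by
        intro p hp
        rw [Function.mem_support] at hp
        rcases p with t | ⟨α, t⟩
        · exact Or.inl ⟨t, hp, rfl⟩
        · right
          simp only [G, Sum.elim_inr] at hp
          refine mem_iUnion₂.2 ⟨α, ?_, t, ?_, rfl⟩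
          · intro h
            apply hp
            rw [h, sub_self]
          · by_contra hcon
            rw [mem_union, not_or, Function.notMem_support, Function.notMem_support] at hcon
            apply hp
            rw [hcon.1, hcon.2, sub_zero]
      refine Countable.mono hsub ?_
      refine ((hF0s _).image _).union ?_
      exact (hJ x).biUnion (fun α _ => (((hFs α _).union (hFs α _)).image _))
    · intro z hz z' hz' h
      refine hG M hM z hz z' hz' ?_
      by_contra hcon
      push Not at hcon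
      obtain ⟨φ, hφ, hne⟩ := hcon
      obtain ⟨α₀, hα₀⟩ := hMB _ hφ
      -- minimal `α` at which the retractions differ
      have hnonempty : {α | rB α z ≠ rB α z'}.Nonempty := by
        refine ⟨α₀, fun heq => hne ?_⟩
        rw [← hrBφ α₀ z φ hα₀, ← hrBφ α₀ z' φ hα₀, heq]
      obtain ⟨α, hα, hmin⟩ := WellFounded.has_min (wellFounded_lt (α := ι)) _ hnonempty
      have hmin' : ∀ β < α, rB β z = rB β z' := by
        intro β hβ
        by_contra hcon
        exact hmin β hcon hβ
      have hr0eq : r0 z = r0 z' := by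
        refine hF0i (hr0 z) (hr0 z') ?_
        funext t
        exact congrFun h (Sum.inl t)
      have hrAeq : rA α z = rA α z' := by
        refine hG _ (hAcl α) _ (hrA α z) _ (hrA α z') (fun ψ hψ => ?_)
        rw [hrAφ α z ψ hψ, hrAφ α z' ψ hψ]
        -- `ψ` lies in `A0` or in some `B β`, `β < α`
        have hcase : ψ ∈ fns A0 ∨ ∃ β < α, ψ ∈ fns (B β) := by
          by_cases hne' : Nonempty (Iio α)
          · right
            have hcl : IsCl O (⋃ β : Iio α, B β) := isCl_iUnion O (fun β => hBcl β) (by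
              intro β γ
              rcases le_total β γ with h | h
              · exact ⟨γ, hBB h, Subset.rfl⟩
              · exact ⟨β, Subset.rfl, hBB h⟩)
            have hsub : A α ⊆ ⋃ β : Iio α, B β := by
              refine hull_min O ?_ hcl
              rintro _ ⟨β, hβ, rfl⟩
              exact mem_iUnion.2 ⟨⟨β, hβ⟩, subset_hull O _ ⟨β, le_refl β, rfl⟩⟩
            obtain ⟨β, hβ⟩ := mem_iUnion.1 (hsub hψ)
            exact ⟨β.1, β.2, hβ⟩
          · left
            have : Iio α = ∅ := by
              rw [not_nonempty_iff] at hne'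
              exact isEmpty_coe_sort.1 hne'
            have h2 : A α = A0 := by
              simp only [A, A0, this, image_empty]
            have h3 : Sum.inr ψ ∈ A α := hψ
            rw [h2] at h3
            exact h3
        rcases hcase with h1 | ⟨β, hβ, h1⟩
        · rw [← hr0φ z ψ h1, ← hr0φ z' ψ h1, hr0eq]
        · rw [← hrBφ β z ψ h1, ← hrBφ β z' ψ h1, hmin' β hβ]
      apply hα
      refine hFi α (hrB α z) (hrB α z') ?_
      funext t
      have h1 := congrFun h (Sum.inr ⟨α, t⟩)
      simp only [G, Sum.elim_inr] at h1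
      rw [hrAeq] at h1
      linarith

end Pool.Agent.V1120.Bandlow
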