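import Pool.Agent.V1120.Bandlow.Main

/-!
# Reflection of stationary families of countable sets implies a positive answer
-/

set_option autoImplicit false
set_option linter.unusedSectionVars false

namespace Pool.Agent.V1120.Bandlow

open Set Cardinal Topology Filter

/-- `T` is stationary in the countable subsets of `N`. -/
def StationaryIn {Z : Type} (N : Set Z) (T : Set (Set Z)) : Prop :=
  ∀ h : Finset Z → Set Z, (∀ s, (h s).Countable) →
    ∃ M ∈ T, M.Countable ∧ M ⊆ N ∧ ∀ s : Finset Z, ↑s ⊆ M → h s ∩ N ⊆ M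

/-- Reflection of stationary families of countable sets to `ω`-closed sets of size `≤ 𝔠`. -/
def Reflection : Prop :=
  ∀ (Z : Type) (T : Set (Set Z)), StationaryIn univ T →
    ∀ g : (ℕ → Z) → Set Z, (∀ u, (g u).Countable) →
      ∃ N : Set Z, #N ≤ continuum ∧ (∀ u : ℕ → Z, (∀ n, u n ∈ N) → g u ⊆ N) ∧ StationaryIn N T

/-- The closure of `A` is Corson compact. -/
def CorsonCl {X : Type} [TopologicalSpace X] (A : Set X) : Prop :=
  ∃ (Γ : Type) (f : ↥(closure A) → (Γ → ℝ)),
    Topology.IsEmbedding f ∧ ∀ x, (Function.support (f x)).Countable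

/-- Subspaces of Σ-products are Fréchet–Urysohn. -/
theorem exists_seq {K Γ : Type} [TopologicalSpace K] {F : K → (Γ → ℝ)} (hF : IsEmbedding F)
    (hs : ∀ x, (Function.support (F x)).Countable) {B : Set K} {z : K} (hz : z ∈ closure B) :
    ∃ u : ℕ → K, (∀ n, u n ∈ B) ∧ Tendsto u atTop (𝓝 z) := by
  classical
  have happ : ∀ (E : Finset Γ) (ε : ℝ), 0 < ε → ∃ b ∈ B, ∀ t ∈ E, |F b t - F z t| < ε := by
    intro E ε hε
    have hopen : IsOpen (⋂ t ∈ E, {b | |F b t - F z t| < ε}) :=
      isOpen_biInter_finset (fun t _ => isOpen_lt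
        ((((continuous_apply t).comp hF.continuous).sub continuous_const).abs) continuous_const)
    have hmem : z ∈ ⋂ t ∈ E, {b | |F b t - F z t| < ε} := by
      rw [mem_iInter₂]
      intro t _
      change |F z t - F z t| < ε
      rw [sub_self, abs_zero]
      exact hε
    obtain ⟨b, hb1, hb2⟩ := mem_closure_iff.1 hz _ hopen hmem
    rw [mem_iInter₂] at hb1
    exact ⟨b, hb2, hb1⟩
  rcases isEmpty_or_nonempty Γ with hΓ | hΓ
  · obtain ⟨b, hb, _⟩ := happ ∅ 1 one_pos
    refine ⟨fun _ => b, fun _ => hb, ?_⟩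
    have : b = z := hF.injective (Subsingleton.elim _ _)
    rw [this]
    exact tendsto_const_nhds
  choose σ hσ using fun k : K => (countable_iff_exists_subset_range.1 (hs k))
  let E : List K → Finset Γ := fun l =>
    (Finset.range (l.length + 1)).biUnion (fun i => (z :: l).toFinset.image (fun k => σ k i))
  choose nx hnxB hnx using fun l : List K => happ (E l) (1 / ((l.length : ℝ) + 1)) (by positivity)
  let L : ℕ → List K := fun n => Nat.rec [] (fun _ l => nx l :: l) n
  have hL : ∀ n, L (n + 1) = nx (L n) :: L n := fun n => rfl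
  have hlen : ∀ n, (L n).length = n := by
    intro n
    induction n with
    | zero => rfl
    | succ n ih => rw [hL, List.length_cons, ih]
  have hmono : ∀ m n, m ≤ n → ∀ k, k ∈ z :: L m → k ∈ z :: L n := by
    intro m n hmn
    induction n, hmn using Nat.le_induction with
    | base => exact fun k hk => hk
    | succ n _ ih =>
      intro k hk
      rw [hL]
      rcases List.mem_cons.1 (ih k hk) with h | h
      · exact List.mem_cons.2 (Or.inl h)
      · exact List.mem_cons.2 (Or.inr (List.mem_cons.2 (Or.inr h)))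
  refine ⟨fun n => nx (L n), fun n => hnxB _, ?_⟩
  rw [hF.tendsto_nhds_iff, tendsto_pi_nhds]
  intro t
  by_cases ht : ∃ m, ∃ i, ∃ k ∈ z :: L m, σ k i = t
  · obtain ⟨m, i, k, hk, hkt⟩ := ht
    have hb : ∀ n, max m i ≤ n → |F (nx (L n)) t - F z t| < 1 / ((n : ℝ) + 1) := by
      intro n hn
      have htE : t ∈ E (L n) := by
        refine Finset.mem_biUnion.2 ⟨i, ?_, ?_⟩
        · rw [Finset.mem_range, hlen]
          exact Nat.lt_succ_of_le ((le_max_right _ _).trans hn)
        · refine Finset.mem_image.2 ⟨k, ?_, hkt⟩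
          rw [List.mem_toFinset]
          exact hmono m n ((le_max_left _ _).trans hn) k hk
      have h1 := hnx (L n) t htE
      rw [hlen] at h1
      exact h1
    rw [Metric.tendsto_atTop]
    intro ε hε
    obtain ⟨n₀, hn₀⟩ := exists_nat_one_div_lt hε
    refine ⟨max (max m i) n₀, fun n hn => ?_⟩
    rw [Real.dist_eq]
    refine (hb n ((le_max_left _ _).trans hn)).trans (lt_of_le_of_lt ?_ hn₀)
    apply one_div_le_one_div_of_le (by positivity)
    have : (n₀ : ℝ) ≤ n := by exact_mod_cast (le_max_right _ _).trans hn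
    linarith
  · push Not at ht
    have hz0 : F z t = 0 := by
      by_contra hne
      obtain ⟨i, hi⟩ := hσ z hne
      exact ht 0 i z (List.mem_cons.2 (Or.inl rfl)) hi
    have hn0 : ∀ n, F (nx (L n)) t = 0 := by
      intro n
      by_contra hne
      obtain ⟨i, hi⟩ := hσ _ hne
      refine ht (n + 1) i (nx (L n)) ?_ hi
      rw [hL]
      exact List.mem_cons.2 (Or.inr (List.mem_cons.2 (Or.inl rfl)))
    simp only [Function.comp_def, hn0, hz0]
    exact tendsto_const_nhds

theorem exists_seq' {X : Type} [TopologicalSpace X] {A : Set X} (hA : CorsonCl A) {z : X}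
    (hz : z ∈ closure A) : ∃ u : ℕ → X, (∀ n, u n ∈ A) ∧ Tendsto u atTop (𝓝 z) := by
  obtain ⟨Γ, F, hF, hs⟩ := hA
  have h1 : (⟨z, hz⟩ : closure A) ∈ closure ((Subtype.val : closure A → X) ⁻¹' A) := by
    rw [IsInducing.subtypeVal.closure_eq_preimage_closure_image]
    change z ∈ closure _
    refine closure_mono ?_ hz
    intro a ha
    exact ⟨⟨a, subset_closure ha⟩, ha, rfl⟩
  obtain ⟨u, hu, hut⟩ := exists_seq hF hs h1
  exact ⟨fun n => (u n).1, hu, (continuous_subtype_val.tendsto _).comp hut⟩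

variable {X : Type} [TopologicalSpace X] [CompactSpace X] [T2Space X]

theorem tight (hR : Reflection) (hX : ∀ A : Set X, #A ≤ continuum → CorsonCl A) :
    ∀ B : Set X, ∀ z ∈ closure B, ∃ P ⊆ B, P.Countable ∧ z ∈ closure P := by
  classical
  intro B z hz
  by_contra hcon
  let B' : Set X := {y | ∃ P ⊆ B, P.Countable ∧ y ∈ closure P}
  have hzB' : z ∉ B' := hcon
  have hBB' : B ⊆ B' := fun y hy =>
    ⟨{y}, singleton_subset_iff.2 hy, countable_singleton _, subset_closure rfl⟩
  have hzcl : z ∈ closure B' := closure_mono hBB' hz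
  have hω : ∀ Q ⊆ B', Q.Countable → closure Q ⊆ B' := by
    intro Q hQ hQc y hy
    choose P hPB hPc hPy using fun q : Q => hQ q.2
    have : Countable Q := hQc.to_subtype
    refine ⟨⋃ q, P q, iUnion_subset hPB, countable_iUnion hPc, ?_⟩
    refine closure_minimal ?_ isClosed_closure hy
    intro q hq
    exact closure_mono (subset_iUnion P ⟨q, hq⟩) (hPy ⟨q, hq⟩)
  have hf : ∀ q : ℕ → X, ∃ f : C(X, ℝ), f z = 1 ∧
      ((∀ n, q n ∈ B') → ∀ y ∈ closure (range q), f y = 0) := by
    intro q
    by_cases hq : ∀ n, q n ∈ B'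
    · have hsub : closure (range q) ⊆ B' := hω _ (by rintro _ ⟨n, rfl⟩; exact hq n)
        (countable_range q)
      obtain ⟨f, hf0, hf1, _⟩ := exists_continuous_zero_one_of_isClosed
        (isClosed_closure (s := range q)) (isClosed_singleton (x := z))
        (disjoint_singleton_right.2 (fun h => hzB' (hsub h)))
      exact ⟨f, hf1 rfl, fun _ y hy => hf0 hy⟩
    · exact ⟨ContinuousMap.const X 1, rfl, fun h => absurd h hq⟩
  choose f hfz hf0 using hf
  have hpick : ∀ G : ℕ → C(X, ℝ), (∀ n, G n z = 1) → ∃ y ∈ B', ∀ n, G n y = 1 := by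
    intro G hG
    have happ : ∀ n : ℕ, ∃ b ∈ B', ∀ i ∈ Finset.range (n + 1), |G i b - 1| < 1 / ((n : ℝ) + 1) := by
      intro n
      have hopen : IsOpen (⋂ i ∈ Finset.range (n + 1), {b | |G i b - 1| < 1 / ((n : ℝ) + 1)}) :=
        isOpen_biInter_finset (fun i _ => isOpen_lt
          (((G i).continuous.sub continuous_const).abs) continuous_const)
      have hmem : z ∈ ⋂ i ∈ Finset.range (n + 1), {b | |G i b - 1| < 1 / ((n : ℝ) + 1)} := by
        rw [mem_iInter₂]
        intro i _
        change |G i z - 1| < _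
        rw [hG i, sub_self, abs_zero]
        positivity
      obtain ⟨b, hb1, hb2⟩ := mem_closure_iff.1 hzcl _ hopen hmem
      rw [mem_iInter₂] at hb1
      exact ⟨b, hb2, hb1⟩
    choose b hbB hb using happ
    let U : Ultrafilter ℕ := hyperfilter ℕ
    have hU : (U : Filter ℕ) ≤ atTop := by
      have := hyperfilter_le_cofinite (α := ℕ)
      rwa [Nat.cofinite_eq_atTop] at this
    have hlim : Tendsto b U (𝓝 (U.map b).lim) := (U.map b).le_nhds_lim
    refine ⟨(U.map b).lim, ?_, ?_⟩
    · refine hω (range b) (by rintro _ ⟨n, rfl⟩; exact hbB n) (countable_range b) ?_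
      exact mem_closure_of_tendsto hlim (Eventually.of_forall (fun n => ⟨n, rfl⟩))
    · intro i
      have h1 : Tendsto (fun n => G i (b n)) U (𝓝 (G i (U.map b).lim)) :=
        ((G i).continuous.tendsto _).comp hlim
      have h2 : Tendsto (fun n => G i (b n)) atTop (𝓝 1) := by
        rw [Metric.tendsto_atTop]
        intro ε hε
        obtain ⟨n₀, hn₀⟩ := exists_nat_one_div_lt hε
        refine ⟨max i n₀, fun n hn => ?_⟩
        rw [Real.dist_eq]
        refine (hb n i (Finset.mem_range.2 (Nat.lt_succ_of_le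
          ((le_max_left _ _).trans hn)))).trans (lt_of_le_of_lt ?_ hn₀)
        apply one_div_le_one_div_of_le (by positivity)
        have : (n₀ : ℝ) ≤ n := by exact_mod_cast (le_max_right _ _).trans hn
        linarith
      exact tendsto_nhds_unique h1 (h2.mono_left hU)
  choose pick hpickB hpick1 using hpick
  let Y : (ℕ → X) → X := fun u => pick (fun n => f (fun k => u (Nat.pair n k))) (fun n => hfz _)
  have hYB : ∀ u, Y u ∈ B' := fun u => hpickB _ (fun n => hfz _)
  have hY1 : ∀ u n, f (fun k => u (Nat.pair n k)) (Y u) = 1 := fun u n =>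
    hpick1 (fun n => f (fun k => u (Nat.pair n k))) (fun n => hfz _) n
  obtain ⟨N, hNc, hNg, hNst⟩ := hR X {M | M.Nonempty} (by
    intro h hh
    refine ⟨hull h {z}, ⟨z, subset_hull h _ rfl⟩, countable_hull h hh (countable_singleton _),
      subset_univ _, ?_⟩
    intro s hs
    exact inter_subset_left.trans (isCl_hull h _ s hs)) (fun u => {Y u})
    (fun u => countable_singleton _)
  obtain ⟨M, hM, _, hMN, _⟩ := hNst (fun _ => ∅) (fun _ => countable_empty)
  obtain ⟨m, hm⟩ : M.Nonempty := hM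
  let A : Set X := N ∩ B'
  have hYA : ∀ u : ℕ → X, (∀ n, u n ∈ A) → Y u ∈ A := fun u hu =>
    ⟨hNg u (fun n => (hu n).1) rfl, hYB u⟩
  have hAne : A.Nonempty :=
    ⟨Y (fun _ => m), hNg (fun _ => m) (fun _ => hMN hm) rfl, hYB (fun _ => m)⟩
  have hAc : #A ≤ continuum := (mk_le_mk_of_subset inter_subset_left).trans hNc
  have hAcor := hX A hAc
  let t : (ℕ → A) → Set X := fun q => {y | f (fun n => (q n).1) y = 1}
  have htc : ∀ q, IsClosed (t q) := fun q => isClosed_eq (f _).continuous continuous_const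
  obtain ⟨w, hw, hwt⟩ := (isClosed_closure (s := A)).isCompact.inter_iInter_nonempty t htc (by
    intro u
    rcases u.eq_empty_or_nonempty with rfl | hu
    · obtain ⟨a, ha⟩ := hAne
      exact ⟨a, subset_closure ha, by simp⟩
    · have : Nonempty u := hu.to_subtype
      obtain ⟨ψ, hψ⟩ := exists_surjective_nat u
      let v : ℕ → X := fun m => ((ψ m.unpair.1).1 m.unpair.2).1
      have hv : ∀ n, v n ∈ A := fun n => ((ψ n.unpair.1).1 n.unpair.2).2
      refine ⟨Y v, subset_closure (hYA v hv), ?_⟩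
      rw [mem_iInter₂]
      intro q hq
      obtain ⟨n, hn⟩ := hψ ⟨q, hq⟩
      have h1 := hY1 v n
      have h2 : (fun k => v (Nat.pair n k)) = fun k => (q k).1 := by
        funext k
        simp only [v, Nat.unpair_pair, hn]
      rw [h2] at h1
      exact h1)
  rw [mem_iInter] at hwt
  obtain ⟨u, hu, hut⟩ := exists_seq' hAcor hw
  have h1 : f u w = 1 := hwt (fun n => ⟨u n, hu n⟩)
  have h2 : f u w = 0 := hf0 u (fun n => (hu n).2) w
    (mem_closure_of_tendsto hut (Eventually.of_forall (fun n => ⟨n, rfl⟩)))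
  rw [h2] at h1
  exact zero_ne_one h1

theorem not_stationary (hX : ∀ A : Set X, #A ≤ continuum → CorsonCl A) (hR : Reflection) :
    ¬ StationaryIn univ {M : Set (X ⊕ C(X, ℝ)) | ¬ Good M} := by
  classical
  intro hst
  have hsep : ∀ p p' : X, ∃ φ : C(X, ℝ), p ≠ p' → φ p ≠ φ p' := by
    intro p p'
    by_cases h : p = p'
    · exact ⟨0, fun h' => absurd h h'⟩
    · obtain ⟨φ, h0, h1, _⟩ := exists_continuous_zero_one_of_isClosed
        (isClosed_singleton (x := p)) (isClosed_singleton (x := p'))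
        (disjoint_singleton.2 h)
      refine ⟨φ, fun _ => ?_⟩
      rw [h0 rfl, h1 rfl]
      exact zero_ne_one
  choose sep hsep using hsep
  let g1 : (ℕ → X ⊕ C(X, ℝ)) → Set (X ⊕ C(X, ℝ)) := fun u =>
    {m | ∃ x : ℕ → X, (∀ n, u n = Sum.inl (x n)) ∧ ∃ y, Tendsto x atTop (𝓝 y) ∧ m = Sum.inl y}
  let g2 : (ℕ → X ⊕ C(X, ℝ)) → Set (X ⊕ C(X, ℝ)) := fun u =>
    {m | ∃ p p', u 0 = Sum.inl p ∧ u 1 = Sum.inl p' ∧ m = Sum.inr (sep p p')}
  have hg1 : ∀ u, (g1 u).Subsingleton := by
    rintro u _ ⟨x, hx, y, hy, rfl⟩ _ ⟨x', hx', y', hy', rfl⟩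
    have hxx : x = x' := by
      funext n
      exact Sum.inl_injective ((hx n).symm.trans (hx' n))
    subst hxx
    rw [tendsto_nhds_unique hy hy']
  have hg2 : ∀ u, (g2 u).Subsingleton := by
    rintro u _ ⟨p, p', h0, h1, rfl⟩ _ ⟨q, q', h0', h1', rfl⟩
    have e1 : p = q := Sum.inl_injective (h0.symm.trans h0')
    have e2 : p' = q' := Sum.inl_injective (h1.symm.trans h1')
    subst e1
    subst e2
    rfl
  obtain ⟨N, hNc, hNg, hNst⟩ := hR _ _ hst (fun u => g1 u ∪ g2 u)
    (fun u => (hg1 u).countable.union (hg2 u).countable)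
  have hpc : #(pts N) ≤ continuum :=
    (mk_preimage_of_injective _ _ Sum.inl_injective).trans hNc
  obtain ⟨Γ, F, hF, hs⟩ := hX (pts N) hpc
  have hcl : closure (pts N) ⊆ pts N := by
    intro z hz
    obtain ⟨x, hx, hxt⟩ := exists_seq' ⟨Γ, F, hF, hs⟩ hz
    exact hNg (fun n => Sum.inl (x n)) hx (Or.inl ⟨x, fun _ => rfl, z, hxt, rfl⟩)
  have hsepN : ∀ p ∈ pts N, ∀ p' ∈ pts N, p ≠ p' → ∃ φ ∈ fns N, φ p ≠ φ p' := by
    intro p hp p' hp' hne
    refine ⟨sep p p', ?_, hsep p p' hne⟩
    refine hNg (fun n => if n = 0 then Sum.inl p else Sum.inl p') ?_ (Or.inr ⟨p, p', ?_, ?_, rfl⟩)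
    · intro n
      by_cases hn : n = 0
      · simp only [hn, if_true]
        exact hp
      · simp only [hn, if_false]
        exact hp'
    · simp
    · simp
  have hcomp : CompactSpace (closure (pts N)) :=
    isCompact_iff_compactSpace.1 isClosed_closure.isCompact
  have hΦ : ∀ t : Γ, ∃ Φ : Set C(X, ℝ), Φ ⊆ fns N ∧ Φ.Countable ∧
      ∀ z z' : closure (pts N), (∀ φ ∈ Φ, φ z.1 = φ z'.1) → F z t = F z' t := by
    intro t
    have hcov : ∀ n : ℕ, ∃ u : Finset (fns N),
        {w : closure (pts N) × closure (pts N) | 1 / ((n : ℝ) + 1) ≤ |F w.1 t - F w.2 t|} ⊆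
          ⋃ φ ∈ u, {w | φ.1 w.1.1 ≠ φ.1 w.2.1} := by
      intro n
      have hFt : Continuous (fun w => F w t) := (continuous_apply t).comp hF.continuous
      refine IsCompact.elim_finite_subcover ?_ _ ?_ ?_
      · refine IsClosed.isCompact ?_
        exact isClosed_le continuous_const
          (((hFt.comp continuous_fst).sub (hFt.comp continuous_snd)).abs)
      · intro φ
        exact isOpen_ne_fun (φ.1.continuous.comp (continuous_subtype_val.comp continuous_fst))
          (φ.1.continuous.comp (continuous_subtype_val.comp continuous_snd))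
      · rintro ⟨z, z'⟩ hzz
        have hne : z ≠ z' := by
          rintro rfl
          have h1 : 1 / ((n : ℝ) + 1) ≤ |F z t - F z t| := hzz
          rw [sub_self, abs_zero] at h1
          have h2 : 0 < 1 / ((n : ℝ) + 1) := by positivity
          linarith
        obtain ⟨φ, hφ, hφne⟩ := hsepN z.1 (hcl z.2) z'.1 (hcl z'.2) (fun h => hne (Subtype.ext h))
        exact mem_iUnion.2 ⟨⟨φ, hφ⟩, hφne⟩
    choose u hu using hcov
    refine ⟨⋃ n, (fun φ : fns N => φ.1) '' (u n : Set (fns N)), ?_, ?_, ?_⟩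
    · refine iUnion_subset (fun n => ?_)
      rintro _ ⟨φ, _, rfl⟩
      exact φ.2
    · exact countable_iUnion (fun n => ((u n).countable_toSet).image _)
    · intro z z' h
      by_contra hne
      obtain ⟨n, hn⟩ := exists_nat_one_div_lt (abs_pos.2 (sub_ne_zero.2 hne))
      have h1 := hu n (show (z, z') ∈ {w : closure (pts N) × closure (pts N) |
        1 / ((n : ℝ) + 1) ≤ |F w.1 t - F w.2 t|} from hn.le)
      rw [mem_iUnion₂] at h1
      obtain ⟨φ, hφ, hφne⟩ := h1
      exact hφne (h φ.1 (mem_iUnion.2 ⟨n, φ, hφ, rfl⟩))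
  choose Φ hΦN hΦc hΦ using hΦ
  -- the club of good models
  let h : Finset (X ⊕ C(X, ℝ)) → Set (X ⊕ C(X, ℝ)) := fun s =>
    ⋃ p ∈ {p : closure (pts N) | (Sum.inl p.1 : X ⊕ C(X, ℝ)) ∈ s},
      ⋃ t ∈ Function.support (F p), Sum.inr '' (Φ t)
  have hh : ∀ s, (h s).Countable := by
    intro s
    refine Countable.biUnion ?_ (fun p _ => (hs p).biUnion (fun t _ => (hΦc t).image _))
    have hinj : Function.Injective (fun p : closure (pts N) => (Sum.inl p.1 : X ⊕ C(X, ℝ))) :=
      Sum.inl_injective.comp Subtype.val_injective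
    exact (s.countable_toSet).preimage_of_injOn hinj.injOn
  obtain ⟨M, hMbad, _, hMN, hMcl⟩ := hNst h hh
  apply hMbad
  intro z hz z' hz' hzz
  have hMNcl : closure (pts M) ⊆ closure (pts N) := closure_mono (pts_mono hMN)
  have key : (⟨z, hMNcl hz⟩ : closure (pts N)) = ⟨z', hMNcl hz'⟩ := by
    apply hF.injective
    funext t
    by_cases ht : ∃ p : closure (pts N), p.1 ∈ pts M ∧ t ∈ Function.support (F p)
    · obtain ⟨p, hp, hpt⟩ := ht
      refine hΦ t _ _ (fun φ hφ => hzz φ ?_)
      refine hMcl {Sum.inl p.1} ?_ ⟨?_, hΦN t hφ⟩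
      · rw [Finset.coe_singleton, singleton_subset_iff]
        exact hp
      · refine mem_iUnion₂.2 ⟨p, Finset.mem_singleton_self _, ?_⟩
        exact mem_iUnion₂.2 ⟨t, hpt, φ, hφ, rfl⟩
    · push Not at ht
      have hzero : ∀ y (hy : y ∈ closure (pts M)), F ⟨y, hMNcl hy⟩ t = 0 := by
        intro y hy
        have hclosed : IsClosed {p : closure (pts N) | F p t = 0} :=
          isClosed_eq ((continuous_apply t).comp hF.continuous) continuous_const
        have hsub : (Subtype.val : closure (pts N) → X) ⁻¹' (pts M) ⊆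
            {p : closure (pts N) | F p t = 0} := by
          intro p hp
          exact Function.notMem_support.1 (ht p hp)
        refine closure_minimal hsub hclosed ?_
        rw [IsInducing.subtypeVal.closure_eq_preimage_closure_image]
        change y ∈ closure _
        refine closure_mono ?_ hy
        intro a ha
        exact ⟨⟨a, subset_closure (pts_mono hMN ha)⟩, ha, rfl⟩
      rw [hzero z hz, hzero z' hz']
  exact congrArg Subtype.val key

/-- Reflection implies a positive answer. -/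
theorem positive (hR : Reflection) (hX : ∀ A : Set X, #A ≤ continuum → CorsonCl A) :
    ∃ (Γ : Type) (f : X → (Γ → ℝ)),
      Topology.IsEmbedding f ∧ ∀ x, (Function.support (f x)).Countable := by
  classical
  have hns := not_stationary hX hR
  unfold StationaryIn at hns
  push Not at hns
  obtain ⟨h, hh, hgood⟩ := hns
  choose D hDc hD using fun s : Finset (X ⊕ C(X, ℝ)) => exists_dense s
  let O : Finset (X ⊕ C(X, ℝ)) → Set (X ⊕ C(X, ℝ)) := fun s => h s ∪ Sum.inl '' (D s)
  have hO : ∀ s, (O s).Countable := fun s => (hh s).union ((hDc s).image _)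
  have ht := tight hR hX
  have hG : ∀ M, IsCl O M → Good M := by
    intro M hM z hz z' hz' hzz
    obtain ⟨P, hPM, hPc, hzP⟩ := ht _ z hz
    obtain ⟨P', hPM', hPc', hzP'⟩ := ht _ z' hz'
    let M₀ := hull O (Sum.inl '' (P ∪ P'))
    have hM₀M : M₀ ⊆ M := by
      refine hull_min O ?_ hM
      rintro _ ⟨p, hp | hp, rfl⟩
      · exact hPM hp
      · exact hPM' hp
    have hM₀c : M₀.Countable := countable_hull O hO ((hPc.union hPc').image _)
    have hM₀ : Good M₀ := by
      by_contra hbad
      obtain ⟨s, hs, hs'⟩ := hgood M₀ hbad hM₀c (subset_univ _)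
      apply hs'
      exact inter_subset_left.trans (subset_union_left.trans (isCl_hull O _ s hs))
    refine hM₀ z (closure_mono ?_ hzP) z' (closure_mono ?_ hzP') (fun φ hφ => hzz φ (hM₀M hφ))
    · intro p hp
      exact subset_hull O _ ⟨p, Or.inl hp, rfl⟩
    · intro p hp
      exact subset_hull O _ ⟨p, Or.inr hp, rfl⟩
  have hF : ∀ M, IsCl O M → Full M := by
    intro M hM
    refine full_of_dense M (fun s hs x ε hε => ?_)
    obtain ⟨p, hp, hpx⟩ := hD s x ε hε
    exact ⟨p, hM s hs (Or.inr ⟨p, hp, rfl⟩), hpx⟩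
  obtain ⟨Γ, F, hFc, hFs, hFi⟩ := main_ind O hO hG hF ht _ univ rfl (fun s _ => subset_univ _)
  have hpts : closure (pts (Set.univ : Set (X ⊕ C(X, ℝ)))) = Set.univ := by
    have : pts (Set.univ : Set (X ⊕ C(X, ℝ))) = Set.univ := rfl
    rw [this, closure_univ]
  rw [hpts] at hFi
  exact ⟨Γ, F, (hFc.isClosedEmbedding (injOn_univ.1 hFi)).isEmbedding, hFs⟩

end Pool.Agent.V1120.Bandlow
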